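import Mathlib
import Pool.Agent.Lib.MP_91315a_an.Main2

/-!
# The rearrangement inequality for the reflection convolution when the superlevel sets of one function are balls

`d ≥ 2`. The inequality of the problem holds for all measurable `f`, `g` and all convex non-decreasing `Φ` if for one of the two functions,
say `g`, every superlevel set `{t < g}`, `t ≥ 0`, is, up to a null set, an open geodesic ball `{x | r < ⟪x, a⟫}` (whose centre `a` and
radius may depend on `t` in any way; the empty set and the whole sphere are included). The other function is arbitrary.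
-/

set_option autoImplicit false

open MeasureTheory
open scoped NNReal ENNReal

namespace Pool.Agent.Results.MP_91315a_an.BallLevels

/-- the ambient space of the sphere `S^d` -/
abbrev Amb (d : ℕ) : Type := EuclideanSpace ℝ (Fin (d + 1))

/-- the surface measure of `S^d`, as a measure on the ambient space -/
noncomputable def om (d : ℕ) : Measure (Amb d) :=
  ((volume : Measure (Amb d)).toSphere).map Subtype.val

/-- `fs` is the cap-symmetric decreasing rearrangement of `f` about the pole `N`: it has the distribution function of `f`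
and is, at the points of `S^d` other than `N`, a non-decreasing function of `⟪x, N⟫` (which may be unbounded near `N`) -/
def IsCapRearr (d : ℕ) (N : Amb d) (f fs : Amb d → ℝ≥0) : Prop :=
  Measurable fs ∧ (∀ t : ℝ≥0, om d {x | t < fs x} = om d {x | t < f x}) ∧
    ∃ φ : ℝ → ℝ≥0, MonotoneOn φ (Set.Iio 1) ∧ ∀ x : Amb d, ‖x‖ = 1 → x ≠ N → fs x = φ (inner ℝ x N)

/-- every superlevel set is almost everywhere an open geodesic ball -/
def BallLevelSets (d : ℕ) (g : Amb d → ℝ≥0) : Prop :=
  ∀ t : ℝ≥0, ∃ (a : Amb d) (r : ℝ), ‖a‖ = 1 ∧ ∀ᵐ x ∂(om d), (t < g x ↔ r < inner ℝ x a)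

/-- the reflection convolution `f * g`, with values in `[0,∞]` -/
noncomputable def reflConv (d : ℕ) (f g : Amb d → ℝ≥0) (u : Amb d) : ℝ≥0∞ :=
  ∫⁻ y, (f y : ℝ≥0∞) * (g (y - (2 * inner ℝ y u) • u) : ℝ≥0∞) ∂(om d)

/-- the integral of `Φ ∘ F - Φ 0` over the sphere, for nondecreasing `Φ`; at `∞` the function `Φ - Φ 0` is extended by its supremum -/
noncomputable def phiInt (d : ℕ) (Φ : ℝ → ℝ) (F : Amb d → ℝ≥0∞) : ℝ≥0∞ :=
  ∫⁻ u, (⨆ s : ℝ≥0, ⨆ (_ : (s : ℝ≥0∞) ≤ F u), ENNReal.ofReal (Φ s - Φ 0)) ∂(om d)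

theorem result :
  ∀ d : ℕ, 2 ≤ d → ∀ N : Amb d, ‖N‖ = 1 →
  ∀ f g fs gs : Amb d → ℝ≥0, Measurable f → Measurable g → IsCapRearr d N f fs → IsCapRearr d N g gs →
    (BallLevelSets d g ∨ BallLevelSets d f) →
  ∀ Φ : ℝ → ℝ, ConvexOn ℝ (Set.Ici 0) Φ → MonotoneOn Φ (Set.Ici 0) →
    phiInt d Φ (reflConv d f g) ≤ phiInt d Φ (reflConv d fs gs) := by
  intro d hd N hN f g fs gs hf hg hfs hgs hball Φ hc hm
  rcases hball with hball | hball
  · exact RC.main_g2 d hd (om d) rfl N hN f g fs gs hf hg hfs.1 hgs.1 hfs.2.1 hgs.2.1 hfs.2.2 hgs.2.2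
      hball Φ hc hm
  · exact RC.main_f2 d hd (om d) rfl N hN f g fs gs hf hg hfs.1 hgs.1 hfs.2.1 hgs.2.1 hfs.2.2 hgs.2.2
      hball Φ hc hm

end Pool.Agent.Results.MP_91315a_an.BallLevels
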