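import Mathlib
import Pool.Agent.Lib.MP_91315a_an.K.MainK

/-!
# The rearrangement inequality for the reflection convolution up to a constant factor, for all functions

`d ≥ 2`. For all measurable `f`, `g` and all convex non-decreasing `Φ` the inequality of the problem holds with `f♯ * g♯` replaced by
`κ_d (f♯ * g♯)`, where `κ_d = 1 / (1 - (d/(d+1))^(d+1))`; `κ_2 = 27/19` and `κ_d` increases to `e/(e-1) = 1.58...`.
-/

set_option autoImplicit false

open MeasureTheory
open scoped NNReal ENNReal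

namespace Pool.Agent.Results.MP_91315a_an.ConstantFactor

/-- the ambient space of the sphere `S^d` -/
abbrev Amb (d : ℕ) : Type := EuclideanSpace ℝ (Fin (d + 1))

/-- the surface measure of `S^d`, as a measure on the ambient space -/
noncomputable def om (d : ℕ) : Measure (Amb d) :=
  ((volume : Measure (Amb d)).toSphere).map Subtype.val

/-- `fs` is the cap-symmetric decreasing rearrangement of `f` about the pole `N`: it has the distribution function of `f`
and is, at the points of `S^d` other than `N`, a non-decreasing function of `⟪x, N⟫` (which may be unbounded near `N`) -/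
def IsCapRearr (d : ℕ) (N : Amb d) (f fs : Amb d → ℝ≥0) : Prop :=
  Measurable fs ∧ (∀ t : ℝ≥0, om d {x | t < fs x} = om d {x | t < f x}) ∧
    ∃ φ : ℝ → ℝ≥0, MonotoneOn φ (Set.Iio 1) ∧ ∀ x : Amb d, ‖x‖ = 1 → x ≠ N → fs x = φ (inner ℝ x N)

/-- the reflection convolution `f * g`, with values in `[0,∞]` -/
noncomputable def reflConv (d : ℕ) (f g : Amb d → ℝ≥0) (u : Amb d) : ℝ≥0∞ :=
  ∫⁻ y, (f y : ℝ≥0∞) * (g (y - (2 * inner ℝ y u) • u) : ℝ≥0∞) ∂(om d)

/-- the integral of `Φ ∘ F - Φ 0` over the sphere, for nondecreasing `Φ`; at `∞` the function `Φ - Φ 0` is extended by its supremum -/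
noncomputable def phiInt (d : ℕ) (Φ : ℝ → ℝ) (F : Amb d → ℝ≥0∞) : ℝ≥0∞ :=
  ∫⁻ u, (⨆ s : ℝ≥0, ⨆ (_ : (s : ℝ≥0∞) ≤ F u), ENNReal.ofReal (Φ s - Φ 0)) ∂(om d)

/-- the constant -/
noncomputable def kap (d : ℕ) : ℝ := 1 / (1 - ((d:ℝ) / (d + 1)) ^ (d + 1))

theorem result :
  ∀ d : ℕ, 2 ≤ d → ∀ N : Amb d, ‖N‖ = 1 →
  ∀ f g fs gs : Amb d → ℝ≥0, Measurable f → Measurable g → IsCapRearr d N f fs → IsCapRearr d N g gs →
  ∀ Φ : ℝ → ℝ, ConvexOn ℝ (Set.Ici 0) Φ → MonotoneOn Φ (Set.Ici 0) →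
    phiInt d Φ (reflConv d f g) ≤ phiInt d Φ (fun u => ENNReal.ofReal (kap d) * reflConv d fs gs u) := by
  intro d hd N hN f g fs gs hf hg hfs hgs Φ hc hm
  exact RC.main_K d hd (om d) rfl N hN f g fs gs hf hg hfs.1 hgs.1 hfs.2.1 hgs.2.1 hfs.2.2 hgs.2.2 Φ hc hm

end Pool.Agent.Results.MP_91315a_an.ConstantFactor
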